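import Mathlib
import Pool.Graph.R_seed8.X34.E.E8
import Pool.Agent.H529.Q.QDefs
import Pool.Agent.H529.E.T44

/-! Task FP2 (helper337 for helper529): narrow progressions of primes with a gap at most `105 lcm (2, q)`
from `DHL[44,2]`. Port of the library files `X34/E/E6.lean`, `E7.lean`, `E8.lean` (45 forms) to `K` forms. -/

set_option autoImplicit false

open Finset Filter

namespace Pool.Agent.H337.FP

open Pool.Agent.H95R2.BG.LF
open Pool.Agent.Y826.ZC (exact_forms)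
open Pool.Agent.X34.E (Adm Pt Ex ap_of Nar Cluster card_mono lift_class goodR)
open Pool.Agent.H529.E (tup44 tup44_admissible tup44_le)

/-- the statement of the engine for `K` forms -/
def EngK (K : ℕ) : Prop := ∃ k : ℝ, 0 < k ∧ ∀ (A B : Fin K → ℕ), AdmissibleL A B →
  ∃ c : ℝ, 0 < c ∧ ∀ᶠ X : ℝ in atTop, c * X / Real.log X ^ K ≤ ((goodR k A B X).card : ℝ)

/-- the forms of a window -/
theorem forms_window {K : ℕ} (S : Finset ℤ) (hS : S.card = K) (hadm : Adm S) (q : ℕ) (r : ℤ) (hq : 0 < q)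
    (hr : ∀ s ∈ S, IsCoprime (r + s) (q : ℤ)) (R : ℕ) (hR : ∀ s ∈ S, |s| ≤ R) :
    ∃ (Q c : ℕ) (B : Fin K → ℕ), 0 < Q ∧ AdmissibleL (fun _ : Fin K => Q) B ∧
      ∀ m : ℕ, 1 ≤ m → ((Q * m + c : ℕ) : ℤ) ≡ r [ZMOD q] ∧
        (∀ i, ((Q * m + B i : ℕ) : ℤ) = ((Q * m + c : ℕ) : ℤ) + S.orderEmbOfFin hS i) ∧
        ∀ z : ℤ, |z| ≤ R → z ∉ S → ¬ ∃ p : ℕ, p.Prime ∧ (p : ℤ) = ((Q * m + c : ℕ) : ℤ) + z := by
  classical
  obtain ⟨Q, c, hQ0, hcR, hcr, hqQ, hpr, hcomp⟩ := exact_forms S q r hq hr R hR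
  set f := S.orderEmbOfFin hS with hf
  have hmem : ∀ i, f i ∈ S := fun i => Finset.orderEmbOfFin_mem S hS i
  have hcast : ∀ i, (((c + f i).toNat : ℕ) : ℤ) = c + f i := by
    intro i
    apply Int.toNat_of_nonneg
    have h1 := (abs_le.1 (hR _ (hmem i))).1
    omega
  refine ⟨Q, c, fun i => (c + f i).toNat, hQ0, ?_, ?_⟩
  · refine ⟨fun _ => hQ0, fun i j hij h => ?_, fun p hp => ?_⟩
    · have h1 : (c + f j).toNat = (c + f i).toNat := Nat.eq_of_mul_eq_mul_left hQ0 h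
      have h2 := hcast i
      have h3 := hcast j
      rw [h1, h2] at h3
      exact hij (f.injective (by linarith))
    · by_cases hpQ : p ∣ Q
      · refine ⟨0, fun i h => hpr _ (hmem i) p hp hpQ ?_⟩
        rw [Nat.mul_zero, zero_add] at h
        rw [← hcast i]
        exact_mod_cast h
      · obtain ⟨r', hr'⟩ := hadm p hp
        have h1 : IsCoprime (Q : ℤ) (p : ℤ) := by
          rw [Nat.isCoprime_iff_coprime, Nat.coprime_comm, hp.coprime_iff_not_dvd]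
          exact hpQ
        obtain ⟨u, v, huv⟩ := h1
        have hp0 : (p : ℤ) ≠ 0 := by exact_mod_cast hp.ne_zero
        refine ⟨((u * (r' - c)) % p).toNat, fun i h => hr' _ (hmem i) ?_⟩
        have h2 : (((u * (r' - c)) % p).toNat : ℤ) = (u * (r' - c)) % p :=
          Int.toNat_of_nonneg (Int.emod_nonneg _ hp0)
        have h3 : (p : ℤ) ∣ (Q : ℤ) * (((u * (r' - c)) % p).toNat : ℤ) + (((c + f i).toNat : ℕ) : ℤ) := by
          exact_mod_cast h
        rw [h2, hcast i, Int.emod_def] at h3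
        have h4 : r' + f i = (Q : ℤ) * (u * (r' - c) - p * (u * (r' - c) / p)) + (c + f i) +
            p * (v * (r' - c) + Q * (u * (r' - c) / p)) := by
          linear_combination (-(r' - (c : ℤ))) * huv
        rw [h4]
        exact dvd_add h3 (dvd_mul_right _ _)
  · intro m hm
    refine ⟨?_, ?_, hcomp m hm⟩
    · obtain ⟨k, hk⟩ := hqQ
      have h4 : ((Q : ℤ) * m) ≡ 0 [ZMOD q] := by
        rw [Int.modEq_zero_iff_dvd, hk]
        push_cast
        exact ⟨k * m, by ring⟩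
      push_cast
      simpa using h4.add hcr
    · intro i
      push_cast
      have := hcast i
      rw [this]
      ring

open Classical in
/-- exact patterns along narrow progressions, one window -/
theorem exactN_aux {K : ℕ} (hK : 0 < K) (k : ℝ) (hk : 0 < k) (hE : ∀ (A B : Fin K → ℕ), AdmissibleL A B →
    ∃ c : ℝ, 0 < c ∧ ∀ᶠ X : ℝ in atTop, c * X / Real.log X ^ K ≤ ((goodR k A B X).card : ℝ))
    (S : Finset ℤ) (hS : S.card = K) (hadm : Adm S) (q : ℕ) (r : ℤ) (hq : 0 < q)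
    (hr : ∀ s ∈ S, IsCoprime (r + s) (q : ℤ)) (R : ℕ) (hR : ∀ s ∈ S, |s| ≤ R) :
    ∃ P ⊆ S, 2 ≤ P.card ∧ ∀ l : ℕ, ∃ C : ℕ, ∃ᶠ N : ℕ in atTop, ∃ d : ℕ, 1 ≤ d ∧
      (d : ℝ) ≤ Real.log N ^ C ∧ (N : ℝ) / Real.log N ^ C ≤
        (((Icc 1 N).filter (fun n : ℕ => ∀ t < l, Pt q r S P R ((N : ℝ) ^ (k / 2)) (n + t * d))).card : ℝ) := by
  obtain ⟨Q, c, B, hQ0, hAB, hwin⟩ := forms_window S hS hadm q r hq hr R hR
  set f := S.orderEmbOfFin hS with hf
  obtain ⟨c0, hc0, hG⟩ := hE _ _ hAB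
  obtain ⟨E, hE2, hEl⟩ := ap_of hK _ _ hAB k c0 hk hc0 hG
  refine ⟨E.map f.toEmbedding, ?_, by rwa [card_map], fun l₀ => ?_⟩
  · intro s hs
    obtain ⟨i, -, rfl⟩ := mem_map.1 hs
    exact Finset.orderEmbOfFin_mem S hS i
  set l := max l₀ 1 with hl
  obtain ⟨C, hC⟩ := hEl l
  refine ⟨C + 1, ?_⟩
  have hlog : ∀ᶠ X : ℕ in atTop, (4 * Q : ℝ) + 1 ≤ Real.log X :=
    (Real.tendsto_log_atTop.comp tendsto_natCast_atTop_atTop).eventually_ge_atTop _
  have ht : Tendsto (fun X : ℕ => 3 * Q * X + c) atTop atTop := by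
    apply tendsto_atTop_mono (f := fun X : ℕ => X) _ tendsto_id
    intro X
    have : 1 * X ≤ 3 * Q * X := Nat.mul_le_mul_right _ (by omega)
    show X ≤ 3 * Q * X + c
    omega
  refine ht.frequently ?_
  refine (hC.and_eventually (hlog.and (eventually_ge_atTop (3 * Q + c + 1)))).mono ?_
  rintro X ⟨⟨d, hd1, hd2, hd3⟩, hXl, hXc⟩
  have hQr : (1 : ℝ) ≤ Q := by exact_mod_cast hQ0
  have hXr : (1 : ℝ) ≤ X := by exact_mod_cast (by omega : 1 ≤ X)
  have hX0 : (0 : ℝ) < X := by linarith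
  set N : ℕ := 3 * Q * X + c with hN
  have hNX : X ≤ N := by
    have : 1 * X ≤ 3 * Q * X := Nat.mul_le_mul_right _ (by omega)
    omega
  have hNXr : (X : ℝ) ≤ N := by exact_mod_cast hNX
  have hNle : N ≤ X * X := by
    calc N ≤ 3 * Q * X + c * X := by
          have : c * 1 ≤ c * X := Nat.mul_le_mul_left _ (by omega)
          omega
      _ = (3 * Q + c) * X := by ring
      _ ≤ X * X := Nat.mul_le_mul_right _ (by omega)
  have hNle4 : N ≤ 4 * Q * X := by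
    have h1 : c * 1 ≤ X := by omega
    have h2 : 1 * X ≤ Q * X := Nat.mul_le_mul_right _ hQ0
    have h3 : 4 * Q * X = 3 * Q * X + Q * X := by ring
    omega
  have hl1 : 1 ≤ Real.log X := by linarith
  have hll : Real.log X ≤ Real.log N := Real.log_le_log hX0 hNXr
  have hrough : (N : ℝ) ^ (k / 2) ≤ (X : ℝ) ^ k := by
    have h1 : (N : ℝ) ≤ (X : ℝ) ^ (2 : ℝ) := by
      rw [Real.rpow_two, sq]
      exact_mod_cast hNle
    calc (N : ℝ) ^ (k / 2) ≤ ((X : ℝ) ^ (2 : ℝ)) ^ (k / 2) :=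
          Real.rpow_le_rpow (Nat.cast_nonneg _) h1 (by positivity)
      _ = (X : ℝ) ^ k := by
          rw [← Real.rpow_mul hX0.le]
          congr 1
          ring
  refine ⟨Q * d, Nat.mul_pos hQ0 hd1, ?_, ?_⟩
  · push_cast
    calc (Q : ℝ) * d ≤ Real.log X * Real.log X ^ C :=
          mul_le_mul (by linarith) hd2 (by positivity) (by linarith)
      _ = Real.log X ^ (C + 1) := by rw [pow_succ]; ring
      _ ≤ Real.log N ^ (C + 1) := pow_le_pow_left₀ (by linarith) hll _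
  · have hcnt : (((Icc 1 (3 * X)).filter (fun n : ℕ => ∀ t < l, Ex k (fun _ : Fin K => Q) B E X (n + t * d))).card : ℝ) ≤
        (((Icc 1 N).filter (fun n : ℕ => ∀ t < l₀, Pt q r S (E.map f.toEmbedding) R ((N : ℝ) ^ (k / 2))
          (n + t * (Q * d)))).card : ℝ) := by
      rw [Nat.cast_le]
      rw [← card_image_of_injective (f := fun m : ℕ => Q * m + c) _ (by
        intro m m' hm
        have h1 : Q * m + c = Q * m' + c := hm
        exact Nat.eq_of_mul_eq_mul_left hQ0 (by omega))]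
      apply card_le_card
      intro n hn
      obtain ⟨m, hm, rfl⟩ := mem_image.1 hn
      obtain ⟨hm1, hm2⟩ := mem_filter.1 hm
      rw [mem_Icc] at hm1
      refine mem_filter.2 ⟨mem_Icc.2 ⟨?_, ?_⟩, fun t ht => ?_⟩
      · have : 1 * 1 ≤ Q * m := Nat.mul_le_mul hQ0 hm1.1
        omega
      · have h1 : Q * m ≤ Q * (3 * X) := Nat.mul_le_mul_left _ hm1.2
        have h2 : Q * (3 * X) = 3 * Q * X := by ring
        omega
      · have e1 : Q * m + c + t * (Q * d) = Q * (m + t * d) + c := by ring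
        rw [e1]
        obtain ⟨h1, h2, h3, h4⟩ := hm2 t (lt_of_lt_of_le ht (le_max_left _ _))
        have hm1' : 1 ≤ m + t * d := by omega
        obtain ⟨w1, w2, w3⟩ := hwin (m + t * d) hm1'
        refine ⟨w1, fun z hz => ⟨fun hp => ?_, fun hz' => ?_⟩, fun s hs p hp hpy hd => ?_⟩
        · have hzS : z ∈ S := by
            by_contra hzS
            exact w3 z hz hzS hp
          obtain ⟨i, hi⟩ : ∃ i, f i = z := by
            have h5 : z ∈ Set.range f := by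
              rw [hf, Finset.range_orderEmbOfFin]
              exact hzS
            exact h5
          refine mem_map.2 ⟨i, (h4 i).1 ?_, hi⟩
          obtain ⟨p, hp1, hp2⟩ := hp
          rw [← hi, ← w2 i] at hp2
          have h6 : p = Q * (m + t * d) + B i := by exact_mod_cast hp2
          rw [← h6]; exact hp1
        · obtain ⟨i, hi, rfl⟩ := mem_map.1 hz'
          exact ⟨_, (h4 i).2 hi, w2 i⟩
        · obtain ⟨i, hi⟩ : ∃ i, f i = s := by
            have h5 : s ∈ Set.range f := by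
              rw [hf, Finset.range_orderEmbOfFin]
              exact hs
            exact h5
          rw [← hi, ← w2 i] at hd
          exact h3 i p hp (hpy.trans hrough) (Int.natCast_dvd_natCast.1 hd)
    refine le_trans ?_ hcnt
    have h1 : (N : ℝ) ≤ 4 * Q * X := by exact_mod_cast hNle4
    have h2 : (4 * Q : ℝ) ≤ Real.log N := by linarith
    have h3 : 0 < Real.log N := by linarith
    have h4 : Real.log X ^ C ≤ Real.log N ^ C := pow_le_pow_left₀ (by linarith) hll C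
    have h5 : 0 < Real.log X ^ C := by positivity
    refine le_trans ?_ hd3
    rw [div_le_div_iff₀ (by positivity) h5]
    calc (N : ℝ) * Real.log X ^ C ≤ (4 * Q * X) * Real.log N ^ C :=
          mul_le_mul h1 h4 h5.le (by positivity)
      _ = X * ((4 * Q) * Real.log N ^ C) := by ring
      _ ≤ X * (Real.log N * Real.log N ^ C) := by
          apply mul_le_mul_of_nonneg_left _ hX0.le
          exact mul_le_mul_of_nonneg_right h2 (by positivity)
      _ = X * Real.log N ^ (C + 1) := by rw [pow_succ]; ring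

open Classical in
/-- **exact patterns of primes along narrow progressions** -/
theorem exactN_of {K : ℕ} (hK : 0 < K) (hE : EngK K) : ∃ k : ℝ, 0 < k ∧ ∀ (S : Finset ℤ), S.card = K → Adm S → ∀ (q : ℕ) (r : ℤ),
    0 < q → (∀ s ∈ S, IsCoprime (r + s) (q : ℤ)) →
    ∃ P ⊆ S, 2 ≤ P.card ∧ ∀ R l : ℕ, ∃ C : ℕ, ∃ᶠ N : ℕ in atTop, ∃ d : ℕ, 1 ≤ d ∧
      (d : ℝ) ≤ Real.log N ^ C ∧ (N : ℝ) / Real.log N ^ C ≤
        (((Icc 1 N).filter (fun n : ℕ => ∀ t < l, Pt q r S P R ((N : ℝ) ^ k) (n + t * d))).card : ℝ) := by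
  obtain ⟨k, hk, hE⟩ := hE
  refine ⟨k / 2, by positivity, fun S hS hadm q r hq hr => ?_⟩
  by_contra hcon
  push Not at hcon
  have h1 : ∀ P : Finset ℤ, ∃ R l : ℕ, P ⊆ S → 2 ≤ P.card → ∀ C : ℕ, ¬ ∃ᶠ N : ℕ in atTop, ∃ d : ℕ, 1 ≤ d ∧
      (d : ℝ) ≤ Real.log N ^ C ∧ (N : ℝ) / Real.log N ^ C ≤
        (((Icc 1 N).filter (fun n : ℕ => ∀ t < l, Pt q r S P R ((N : ℝ) ^ (k / 2)) (n + t * d))).card : ℝ) := by
    intro P
    by_cases h : P ⊆ S ∧ 2 ≤ P.card
    · obtain ⟨R, l, h2⟩ := hcon P h.1 h.2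
      exact ⟨R, l, fun _ _ C => by
        rw [Filter.not_frequently]
        filter_upwards [h2 C] with N hN
        rintro ⟨d, hd1, hd2, hd3⟩
        exact absurd hd3 (not_le.2 (hN d hd1 hd2))⟩
    · exact ⟨0, 0, fun h2 h3 => absurd ⟨h2, h3⟩ h⟩
  choose Rf lf hf using h1
  set R0 : ℕ := S.sup (fun s => s.natAbs) with hR0
  have hR0' : ∀ s ∈ S, |s| ≤ (R0 : ℤ) := by
    intro s hs
    rw [Int.abs_eq_natAbs]
    exact_mod_cast Finset.le_sup (f := fun s : ℤ => s.natAbs) hs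
  obtain ⟨P, hP, hP2, hPl⟩ := exactN_aux hK k hk hE S hS hadm q r hq hr (R0 + S.powerset.sup Rf)
    (fun s hs => (hR0' s hs).trans (by push_cast; omega))
  obtain ⟨C, hC⟩ := hPl (lf P)
  apply hf P hP hP2 C
  refine hC.mono ?_
  rintro N ⟨d, hd1, hd2, hd3⟩
  refine ⟨d, hd1, hd2, hd3.trans ?_⟩
  rw [Nat.cast_le]
  apply card_le_card
  intro n hn
  obtain ⟨h1, h2⟩ := mem_filter.1 hn
  refine mem_filter.2 ⟨h1, fun t ht => (h2 t ht).mono ?_⟩
  have := Finset.le_sup (f := Rf) (mem_powerset.2 hP)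
  omega

/-- exact patterns of primes in the admissible set `S` of `K` integers, as `Nar` -/
theorem nar_exact {K : ℕ} (hK : 0 < K) (hE : EngK K) (S : Finset ℤ) (hS : K ≤ S.card) (hadm : Adm S) (q : ℕ) (r : ℤ) (hq : 0 < q)
    (hr : ∀ s ∈ S, IsCoprime (r + s) (q : ℤ)) :
    ∃ P ⊆ S, 2 ≤ P.card ∧ ∀ R : ℕ, Nar (fun n => (n : ℤ) ≡ r [ZMOD q] ∧
      ∀ z : ℤ, |z| ≤ R → ((∃ p : ℕ, p.Prime ∧ (p : ℤ) = n + z) ↔ z ∈ P)) := by
  classical
  obtain ⟨T, hTS, hT⟩ := Finset.exists_subset_card_eq hS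
  obtain ⟨k, hk, h⟩ := exactN_of hK hE
  obtain ⟨P, hP, hP2, hPl⟩ := h T hT (fun p hp => (hadm p hp).imp fun r' h s hs => h s (hTS hs)) q r hq
    (fun s hs => hr s (hTS hs))
  refine ⟨P, hP.trans hTS, hP2, fun R l => ?_⟩
  obtain ⟨C, hC⟩ := hPl R l
  refine ⟨C, hC.mono ?_⟩
  rintro N ⟨d, h1, h2, h3⟩
  refine ⟨d, h1, h2, h3.trans ?_⟩
  rw [Nat.cast_le]
  exact card_mono _ (fun n _ hn j hj => ⟨(hn j hj).1, (hn j hj).2.1⟩)

/-- clusters in a set `G` of at least `K` numbers, in a residue class -/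
theorem nar_cluster {K : ℕ} (hK : 0 < K) (hE : EngK K) (q a : ℕ) (hq : 0 < q) (ha : a.Coprime q) (G : Finset ℕ) (hG : K ≤ G.card)
    (hadm : ∀ p : ℕ, p.Prime → ¬ p ∣ q → ∃ r : ℕ, ∀ g ∈ G, ¬ p ∣ r + g) :
    ∃ P ⊆ G, 2 ≤ P.card ∧ ∃ g₀ ∈ P, (∀ g ∈ P, g₀ ≤ g) ∧
      ∀ R : ℕ, Nar (Cluster q a R (P.image (fun g => q * (g - g₀)))) := by
  classical
  set S : Finset ℤ := G.image (fun g : ℕ => (q : ℤ) * (g : ℤ)) with hS
  have hq0 : (q : ℤ) ≠ 0 := by exact_mod_cast hq.ne'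
  have hinj : Function.Injective (fun g : ℕ => (q : ℤ) * (g : ℤ)) := by
    intro g g' h
    have h1 : (q : ℤ) * g = q * g' := h
    exact_mod_cast mul_left_cancel₀ hq0 h1
  have hScard : K ≤ S.card := by rw [hS, card_image_of_injective _ hinj]; exact hG
  have hSadm : Adm S := by
    intro p hp
    by_cases hpq : p ∣ q
    · refine ⟨1, fun s hs hd => ?_⟩
      obtain ⟨g, -, rfl⟩ := mem_image.1 hs
      have h1 : (p : ℤ) ∣ (q : ℤ) * g := (Int.natCast_dvd_natCast.2 hpq).mul_right _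
      have h2 : (p : ℤ) ∣ 1 := (dvd_add_left h1).1 hd
      have h3 := Int.natCast_dvd_natCast.1 (show ((p : ℕ) : ℤ) ∣ ((1 : ℕ) : ℤ) by exact_mod_cast h2)
      exact hp.one_lt.ne' (Nat.dvd_one.1 h3)
    · obtain ⟨r, hr⟩ := hadm p hp hpq
      refine ⟨q * r, fun s hs hd => ?_⟩
      obtain ⟨g, hg, rfl⟩ := mem_image.1 hs
      have h1 : (q : ℤ) * r + q * g = ((q * (r + g) : ℕ) : ℤ) := by push_cast; ring
      rw [h1, Int.natCast_dvd_natCast, hp.dvd_mul] at hd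
      rcases hd with h2 | h2
      · exact hpq h2
      · exact hr g hg h2
  obtain ⟨P', hP', hP'2, hPR⟩ := nar_exact hK hE S hScard hSadm q a hq (fun s hs => by
    obtain ⟨g, -, rfl⟩ := mem_image.1 hs
    have h1 : IsCoprime (a : ℤ) (q : ℤ) := Nat.isCoprime_iff_coprime.2 ha
    exact (IsCoprime.add_mul_left_left h1 (g : ℤ)))
  set P : Finset ℕ := G.filter (fun g : ℕ => (q : ℤ) * (g : ℤ) ∈ P') with hP
  have hPP' : ∀ z : ℤ, z ∈ P' ↔ ∃ g ∈ P, z = q * g := by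
    intro z
    constructor
    · intro hz
      obtain ⟨g, hg, hgz⟩ := mem_image.1 (hP' hz)
      exact ⟨g, mem_filter.2 ⟨hg, by rw [hgz]; exact hz⟩, hgz.symm⟩
    · rintro ⟨g, hg, rfl⟩
      exact (mem_filter.1 hg).2
  have hPcard : P'.card = P.card := by
    have : P' = P.image (fun g : ℕ => (q : ℤ) * (g : ℤ)) := by
      ext z
      rw [hPP', mem_image]
      constructor
      · rintro ⟨g, hg, h⟩; exact ⟨g, hg, h.symm⟩
      · rintro ⟨g, hg, h⟩; exact ⟨g, hg, h.symm⟩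
    rw [this, card_image_of_injective _ hinj]
  have hPne : P.Nonempty := by
    rw [← card_pos]; omega
  obtain ⟨g₀, hg₀, hmin⟩ := exists_min_image P id hPne
  refine ⟨P, filter_subset _ _, by omega, g₀, hg₀, hmin, fun R => ?_⟩
  apply Nar.affine (q := 1) (b := q * g₀) one_pos
  refine (hPR (R + q * g₀)).mono ?_
  rintro n ⟨h1, h2⟩
  have e1 : 1 * n + q * g₀ = n + q * g₀ := by ring
  rw [e1]
  refine ⟨?_, fun m hm1 hm2 => ?_⟩
  · have h3 : n ≡ a [MOD q] := Int.natCast_modEq_iff.1 h1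
    have h4 : n + q * g₀ ≡ a + 0 [MOD q] := h3.add ((Nat.modEq_zero_iff_dvd).2 (dvd_mul_right _ _))
    simpa using h4
  · have h3 : |(m : ℤ) - n| ≤ ((R + q * g₀ : ℕ) : ℤ) := by
      rw [abs_le]
      constructor
      · push_cast; omega
      · push_cast; omega
    have h4 := h2 ((m : ℤ) - n) h3
    have h5 : m.Prime ↔ (m : ℤ) - n ∈ P' := by
      rw [← h4]
      constructor
      · intro h6
        exact ⟨m, h6, by ring⟩
      · rintro ⟨p, hp1, hp2⟩
        have h7 : p = m := by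
          have : (p : ℤ) = m := by rw [hp2]; ring
          exact_mod_cast this
        rw [← h7]; exact hp1
    rw [h5, hPP']
    constructor
    · rintro ⟨g, hg, h6⟩
      refine ⟨q * (g - g₀), mem_image.2 ⟨g, hg, rfl⟩, ?_⟩
      have h7 : g₀ ≤ g := hmin g hg
      have h8 : q * g = q * (g - g₀) + q * g₀ := by
        rw [← Nat.mul_add, Nat.sub_add_cancel h7]
      have h9 : (m : ℤ) = ((n + q * g : ℕ) : ℤ) := by push_cast; linarith
      have h10 : m = n + q * g := by exact_mod_cast h9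
      omega
    · rintro ⟨h, hh, h6⟩
      obtain ⟨g, hg, rfl⟩ := mem_image.1 hh
      refine ⟨g, hg, ?_⟩
      have h7 : g₀ ≤ g := hmin g hg
      have h8 : q * g = q * (g - g₀) + q * g₀ := by
        rw [← Nat.mul_add, Nat.sub_add_cancel h7]
      have h9 : m = n + q * g := by omega
      rw [h9]
      push_cast
      ring

/-- half of the tuple of diameter 210 -/
def G44 : Finset ℕ := {0, 5, 6, 11, 12, 14, 17, 21, 24, 26, 27, 29, 32, 35, 36, 39, 41, 45, 47, 50, 54, 56, 57,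
  60, 62, 66, 69, 71, 74, 77, 80, 81, 84, 87, 89, 90, 92, 95, 96, 99, 101, 102, 104, 105}

theorem G44_card : G44.card = 44 := by decide

theorem G44_le : ∀ g ∈ G44, g ≤ 105 := by decide

set_option maxRecDepth 100000 in
theorem G44_tup : ∀ g ∈ G44, ∃ i, tup44 i = 2 * g := by decide

/-- `G44` misses a class modulo every odd prime -/
theorem G44_adm (p : ℕ) (hp : p.Prime) (h2 : p ≠ 2) : ∃ r : ℕ, ∀ g ∈ G44, ¬ p ∣ r + g := by
  obtain ⟨a, ha⟩ := tup44_admissible.2 p hp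
  -- `r ≡ a / 2`
  have hodd : p % 2 = 1 := by
    rcases hp.eq_two_or_odd with h | h
    · exact absurd h h2
    · exact h
  refine ⟨a * ((p + 1) / 2), fun g hg hd => ?_⟩
  obtain ⟨i, hi⟩ := G44_tup g hg
  apply ha i
  rw [hi]
  have h1 : 2 * ((p + 1) / 2) = p + 1 := by omega
  have h3 : 2 * (a * ((p + 1) / 2) + g) = a * p + (a + 2 * g) := by
    calc 2 * (a * ((p + 1) / 2) + g) = a * (2 * ((p + 1) / 2)) + 2 * g := by ring
      _ = a * p + (a + 2 * g) := by rw [h1]; ring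
  have h4 : p ∣ a * p + (a + 2 * g) := by rw [← h3]; exact hd.mul_left 2
  exact (Nat.dvd_add_right (dvd_mul_left p a)).1 h4

/-- clusters inside `lcm (2, q) * [0, 105]` -/
theorem cluster105 (H : Pool.Agent.H529.Q.Dhl44R) (q a : ℕ) (hq : 0 < q) (ha : a.Coprime q) :
    ∃ (P : Finset ℕ) (k : ℕ), 0 ∈ P ∧ 1 ≤ k ∧ k ≤ 105 ∧ k * Nat.lcm 2 q ∈ P ∧
      (∀ h ∈ P, h = 0 ∨ k * Nat.lcm 2 q ≤ h) ∧
      (∀ h ∈ P, h ≤ 105 * Nat.lcm 2 q ∧ Nat.lcm 2 q ∣ h) ∧
      ∀ R : ℕ, Nar (Cluster q a R P) := by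
  classical
  obtain ⟨a', ha1, ha2⟩ := lift_class q a hq ha
  have hM0 : 0 < Nat.lcm 2 q := Nat.lcm_pos (by norm_num) hq
  obtain ⟨P0, hP0, hP2, g₀, hg₀, hmin, hR⟩ := nar_cluster (K := 44) (by norm_num) H (Nat.lcm 2 q) a'
    hM0 ha2 G44 (by rw [G44_card])
    (fun p hp hpM => G44_adm p hp (fun h => hpM (h ▸ Nat.dvd_lcm_left 2 q)))
  have hne : (P0.erase g₀).Nonempty := by
    rw [← card_pos, card_erase_of_mem hg₀]
    omega
  obtain ⟨g₁, hg₁, hmin1⟩ := exists_min_image (P0.erase g₀) id hne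
  obtain ⟨hg1a, hg1b⟩ := mem_erase.1 hg₁
  have hlt : g₀ < g₁ := lt_of_le_of_ne (hmin g₁ hg1b) (Ne.symm hg1a)
  have hg105 := G44_le g₁ (hP0 hg1b)
  refine ⟨P0.image (fun g => Nat.lcm 2 q * (g - g₀)), g₁ - g₀, ?_, by omega, by omega, ?_, ?_, ?_, ?_⟩
  · exact mem_image.2 ⟨g₀, hg₀, by simp⟩
  · exact mem_image.2 ⟨g₁, hg1b, by ring⟩
  · intro h hh
    obtain ⟨g, hg, rfl⟩ := mem_image.1 hh
    by_cases hgg : g = g₀
    · left; simp [hgg]
    · right
      have h1 : g₁ ≤ g := hmin1 g (mem_erase.2 ⟨hgg, hg⟩)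
      rw [mul_comm]
      exact Nat.mul_le_mul_left _ (by omega)
  · intro h hh
    obtain ⟨g, hg, rfl⟩ := mem_image.1 hh
    have h1 := G44_le g (hP0 hg)
    refine ⟨?_, dvd_mul_right _ _⟩
    rw [mul_comm]
    exact Nat.mul_le_mul_right _ (by omega)
  · intro R
    refine (hR R).mono ?_
    rintro n ⟨h1, h2⟩
    exact ⟨(h1.of_dvd (Nat.dvd_lcm_right 2 q)).trans ha1, h2⟩

/-- **FP2.** Narrow progressions of primes `≡ a (mod q)` followed by a gap `k lcm (2, q)`, `k ≤ 105`, from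
`DHL[44,2]`. -/
theorem narrow210 (H : Pool.Agent.H529.Q.Dhl44R) (q a : ℕ) (hq : 1 ≤ q) (ha : a.Coprime q) :
    ∃ (P : Finset ℕ) (k : ℕ), 0 ∈ P ∧ 1 ≤ k ∧ k ≤ 105 ∧ k * Nat.lcm 2 q ∈ P ∧
      (∀ h ∈ P, h = 0 ∨ k * Nat.lcm 2 q ≤ h) ∧
      (∀ h ∈ P, h ≤ 105 * Nat.lcm 2 q ∧ Nat.lcm 2 q ∣ h) ∧
      ∀ l R : ℕ, ∃ C : ℕ, ∃ᶠ N : ℕ in atTop, ∃ d : ℕ, 1 ≤ d ∧ (d : ℝ) ≤ Real.log N ^ C ∧
        (N : ℝ) / Real.log N ^ C ≤
          (Set.ncard {n : ℕ | 1 ≤ n ∧ n ≤ N ∧ ∀ t < l, Cluster q a R P (n + t * d)} : ℝ) := by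
  classical
  obtain ⟨P, k, h1, h2, h3, h4, h5, h6, h7⟩ := cluster105 H q a hq ha
  refine ⟨P, k, h1, h2, h3, h4, h5, h6, fun l R => ?_⟩
  obtain ⟨C, hC⟩ := h7 R l
  refine ⟨C, hC.mono ?_⟩
  rintro N ⟨d, hd1, hd2, hd3⟩
  refine ⟨d, hd1, hd2, hd3.trans ?_⟩
  rw [← Set.ncard_coe_finset, Nat.cast_le]
  apply Set.ncard_le_ncard
  · intro n hn
    simp only [coe_filter, mem_Icc, Set.mem_setOf_eq] at hn
    exact ⟨hn.1.1, hn.1.2, fun t ht => hn.2 t ht⟩
  · exact (Set.finite_Iic N).subset fun n hn => hn.2.1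

end Pool.Agent.H337.FP
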